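import Pool.Agent.Lib.MP_21eb72_gt.Main

set_option autoImplicit false

open scoped ContDiff

namespace Pool.Agent.Results.MP_21eb72_gt.FivePoints

/-- `Γ ⊆ ℝ^(n-2) × ℝ^2` is a codimension-2 surface: the graph over the open cube `(-1,1)^(n-2)` of
a map `f`, smooth on `(-2,2)^(n-2)`, with `f 0 = 0`. -/
def IsSurface (n : ℕ) (Γ : Set ((Fin (n - 2) → ℝ) × (Fin 2 → ℝ))) : Prop :=
  ∃ f : (Fin (n - 2) → ℝ) → (Fin 2 → ℝ),
    ContDiffOn ℝ ∞ f {x | ∀ i, x i ∈ Set.Ioo (-2 : ℝ) 2} ∧ f 0 = 0 ∧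
    Γ = {p | (∀ i, p.1 i ∈ Set.Ioo (-1 : ℝ) 1) ∧ p.2 = f p.1}

/-- For every `n ≥ 15`, every codimension-2 surface in `ℝ^n` meets some affine 2-plane in at least
five points. -/
theorem result (n : ℕ) (hn : 15 ≤ n) (Γ : Set ((Fin (n - 2) → ℝ) × (Fin 2 → ℝ)))
    (hΓ : IsSurface n Γ) :
    ∃ P : AffineSubspace ℝ ((Fin (n - 2) → ℝ) × (Fin 2 → ℝ)),
      Module.finrank ℝ P.direction = 2 ∧ 5 ≤ (Γ ∩ (P : Set _)).encard := by
  obtain ⟨f, hf, -, rfl⟩ := hΓ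
  obtain ⟨P, hP, S, hS, h⟩ := Pool.Agent.Lib.MP_21eb72_gt.five_points (n - 2) (by omega) f
    (hf.mono fun x hx i => ⟨by linarith [(hx i).1], by linarith [(hx i).2]⟩)
  refine ⟨P, hP, ?_⟩
  have hinj : Function.Injective fun x : Fin (n - 2) → ℝ => (x, f x) := by
    intro x y hxy
    exact congrArg Prod.fst hxy
  have h1 : ((S : Set (Fin (n - 2) → ℝ)).image fun x => (x, f x)).encard = 5 := by
    rw [hinj.encard_image, Set.encard_coe_eq_coe_finsetCard, hS]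
    rfl
  rw [← h1]
  refine Set.encard_le_encard ?_
  rintro _ ⟨x, hx, rfl⟩
  exact ⟨⟨(h x hx).1, rfl⟩, (h x hx).2⟩

end Pool.Agent.Results.MP_21eb72_gt.FivePoints
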